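import Mathlib
import Pool.Agent.H15.Vald1

open Set Filter Topology Function Cardinal

namespace Pool.Agent.Results.MP_570618_gt.AllFail
open Pool.Agent.H15.Vald

/-- `C_p(X)`: continuous real functions on `X` with the subspace topology from the product. -/
abbrev Cp (X : Type) [TopologicalSpace X] : Type := {f : X → ℝ // Continuous f}

/-- Eberlein compact spaces: compact Hausdorff spaces embedding in `C_p(K)`, `K` compact. -/
def IsEberlein (X : Type) [TopologicalSpace X] : Prop :=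
  CompactSpace X ∧ T2Space X ∧ ∃ (K : Type) (_ : TopologicalSpace K), CompactSpace K ∧
    T2Space K ∧ ∃ e : X → Cp K, IsEmbedding e

/-- Countable tightness. -/
def CountablyTight (Z : Type) [TopologicalSpace Z] : Prop :=
  ∀ (A : Set Z) (z : Z), z ∈ closure A → ∃ A' ⊆ A, A'.Countable ∧ z ∈ closure A'

/-- Monolithic spaces: the closure of an infinite set `A` has a network of size at most `|A|`. -/
def Monolithic (Z : Type) [TopologicalSpace Z] : Prop :=
  ∀ A : Set Z, A.Infinite → ∃ 𝒩 : Set (Set (closure A)), #𝒩 ≤ #A ∧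
    ∀ U : Set (closure A), IsOpen U → ∀ x ∈ U, ∃ N ∈ 𝒩, x ∈ N ∧ N ⊆ U

theorem ct_of_seq {Z : Type} [TopologicalSpace Z] [SequentialSpace Z] : CountablyTight Z := by
  intro A z hz
  have h : IsSeqClosed {z | ∃ A' ⊆ A, A'.Countable ∧ z ∈ closure A'} := by
    intro x p hx hp
    choose B h1 h2 h3 using hx
    exact ⟨⋃ n, B n, iUnion_subset h1, countable_iUnion h2, isClosed_closure.mem_of_tendsto hp
      (Eventually.of_forall fun n => closure_mono (subset_iUnion B n) (h3 n))⟩
  refine closure_minimal (fun a ha => ?_) h.isClosed hz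
  exact ⟨{a}, singleton_subset_iff.2 ha, countable_singleton _, subset_closure rfl⟩

section
variable {Γ : Type} [TopologicalSpace Γ] [DiscreteTopology Γ]

theorem fin_fun (γ : Γ) (c : ℝ) : ∃ d : Cp (OnePoint Γ), d.1 γ = c ∧
    ∀ x : OnePoint Γ, x ≠ γ → d.1 x = 0 := by
  classical
  refine ⟨⟨fun x => if x = γ then c else 0, ?_⟩, if_pos rfl, fun x hx => if_neg hx⟩
  rw [OnePoint.continuous_iff_from_discrete, if_neg (OnePoint.infty_ne_coe γ)]
  refine tendsto_const_nhds.congr' ?_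
  filter_upwards [(finite_singleton γ).compl_mem_cofinite] with x hx
  exact (if_neg fun h => hx (OnePoint.coe_injective h)).symm

theorem supp_fun {T : Set Γ} (hT : T.Countable) :
    ∃ d : Cp (OnePoint Γ), ∀ γ : Γ, d.1 γ ≠ 0 ↔ γ ∈ T := by
  classical
  obtain ⟨e, he⟩ := Set.countable_iff_exists_injOn.1 hT
  let h : Γ → ℝ := fun γ => if γ ∈ T then 1 / ((e γ : ℝ) + 1) else 0
  refine ⟨⟨fun x => OnePoint.rec 0 h x, ?_⟩, fun γ => ?_⟩
  · rw [OnePoint.continuous_iff_from_discrete]
    refine Metric.tendsto_nhds.2 fun ε hε => ?_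
    obtain ⟨N, hN⟩ := exists_nat_one_div_lt hε
    have h1 : (T ∩ e ⁻¹' Iic N).Finite :=
      Finite.of_injOn (f := e) (fun _ hx => hx.2) (he.mono inter_subset_left) (finite_Iic N)
    filter_upwards [h1.compl_mem_cofinite] with γ hγ
    show dist (h γ) 0 < ε
    by_cases h2 : γ ∈ T
    · have h3 : N ≤ e γ := (not_le.1 fun h => hγ ⟨h2, h⟩).le
      rw [dist_zero_right, show h γ = 1 / ((e γ : ℝ) + 1) from if_pos h2,
        Real.norm_of_nonneg (by positivity)]
      exact (Nat.one_div_le_one_div h3).trans_lt hN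
    · rw [show h γ = 0 from if_neg h2, dist_self]
      exact hε
  · show h γ ≠ 0 ↔ _
    by_cases h2 : γ ∈ T
    · rw [show h γ = 1 / ((e γ : ℝ) + 1) from if_pos h2]
      exact iff_of_true (by positivity) h2
    · exact iff_of_false (not_not.2 (if_neg h2)) h2

theorem eberlein : IsEberlein (OnePoint Γ) := by
  choose d d1 d2 using fun γ : Γ => fin_fun γ 1
  let e : OnePoint Γ → Cp (OnePoint Γ) := fun x => OnePoint.rec ⟨0, continuous_const⟩ d x
  have hc : Continuous e := by
    rw [OnePoint.continuous_iff_from_discrete]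
    refine tendsto_subtype_rng.2 (tendsto_pi_nhds.2 fun y => ?_)
    refine tendsto_const_nhds.congr' ?_
    have : {γ : Γ | y = γ}.Finite := Set.Subsingleton.finite fun a ha b hb =>
      OnePoint.coe_injective (ha.symm.trans hb)
    filter_upwards [this.compl_mem_cofinite] with γ hγ
    exact (d2 γ y hγ).symm
  refine ⟨inferInstance, inferInstance, OnePoint Γ, inferInstance, inferInstance, inferInstance,
    e, (hc.isClosedEmbedding fun x y h => ?_).isEmbedding⟩
  have key : ∀ (γ : Γ) (y : OnePoint Γ), (e y).1 γ = 1 → y = γ := by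
    intro γ y h
    induction y using OnePoint.rec with
    | infty => exact absurd (show (0 : ℝ) = 1 from h) zero_ne_one
    | coe δ =>
      by_contra h'
      have h2 : (d δ).1 γ = 1 := h
      rw [d2 δ γ (Ne.symm h')] at h2
      exact zero_ne_one h2
  induction x using OnePoint.rec with
  | infty =>
    induction y using OnePoint.rec with
    | infty => rfl
    | coe δ => exact key δ _ (h ▸ d1 δ)
  | coe γ => exact (key γ y (h ▸ d1 γ)).symm

end

theorem gauge {X : Type} [TopologicalSpace X] {T : Set X} (hT : T.Countable) :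
    ∃ b : Cp X → ℝ, Continuous b ∧ ∀ x, 0 ≤ b x ∧ (b x = 0 ↔ ∀ t ∈ T, x.1 t = 0) := by
  have := hT.to_subtype
  let _ := TopologicalSpace.metrizableSpaceMetric (T → ℝ)
  refine ⟨fun x => dist (fun t : T => x.1 t) 0, (continuous_pi fun t =>
    (continuous_apply _).comp continuous_subtype_val).dist continuous_const,
    fun x => ⟨dist_nonneg, ?_⟩⟩
  rw [dist_eq_zero, funext_iff]
  simp

theorem real {W J : Type} [TopologicalSpace W] {f : W → J → ℝ} (hf : Continuous f)
    {K : Set (J → ℝ)} (hK : IsCompact K) (h : K ⊆ range f) :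
    ∃ (Y : Type) (_ : TopologicalSpace Y), T35Space Y ∧ ∃ g : W → Y, Continuous g ∧
      Surjective g ∧ ∃ B : Set Y, IsCompact B ∧ ∃ e : B → J → ℝ, IsEmbedding e ∧ range e = K := by
  refine ⟨range f, inferInstance, inferInstance, rangeFactorization f,
    hf.subtype_mk _, rangeFactorization_surjective, Subtype.val ⁻¹' K,
    IsEmbedding.subtypeVal.isCompact_preimage' hK (by rwa [Subtype.range_coe]), fun z => z.1.1,
    IsEmbedding.subtypeVal.comp IsEmbedding.subtypeVal, ?_⟩
  ext y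
  exact ⟨by rintro ⟨z, rfl⟩; exact z.2, fun hy => ⟨⟨⟨y, h hy⟩, hy⟩, rfl⟩⟩

def K1 : Set (I → ℝ) := {y | (∀ α, y α = 0 ∨ y α = 1) ∧ ∀ α β, α ≤ β → y β ≤ y α}

theorem K1_compact : IsCompact K1 := by
  refine (isCompact_univ_pi fun _ : I => isCompact_Icc (a := (0 : ℝ)) (b := 1)).of_isClosed_subset
    (IsClosed.inter ?_ ?_) fun y hy α _ => ?_
  · show IsClosed {y : I → ℝ | ∀ α, y α = 0 ∨ y α = 1}
    rw [ofPred_forall]
    exact isClosed_iInter fun α => (isClosed_eq (continuous_apply α) continuous_const).union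
      (isClosed_eq (continuous_apply α) continuous_const)
  · show IsClosed {y : I → ℝ | ∀ α β, α ≤ β → y β ≤ y α}
    simp only [ofPred_forall]
    exact isClosed_iInter fun α => isClosed_iInter fun β => isClosed_iInter fun _ =>
      isClosed_le (continuous_apply β) (continuous_apply α)
  · rcases hy.1 α with h | h <;> simp [h]

theorem K1_not {Z : Type} [TopologicalSpace Z] {e : Z → I → ℝ} (he : IsEmbedding e)
    (hr : range e = K1) : ¬ CountablyTight Z := by
  classical
  intro h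
  obtain ⟨z, hz⟩ : (fun _ => 1 : I → ℝ) ∈ range e := hr ▸ ⟨fun _ => Or.inr rfl, fun _ _ _ => le_rfl⟩
  obtain ⟨A, h1, h2, h3⟩ := h {w | ∃ α, e w α = 0} z (by
    rw [he.closure_eq_preimage_closure_image, mem_preimage, hz]
    refine _root_.mem_closure_iff.2 fun W hW hw => ?_
    obtain ⟨T, u, h4, h5⟩ := isOpen_pi_iff.1 hW _ hw
    obtain ⟨ξ, hξ⟩ := I_bdd T.countable_toSet
    obtain ⟨w, hw⟩ : (fun α => if α < ξ then 1 else 0 : I → ℝ) ∈ range e := by
      rw [hr]
      refine ⟨fun α => by by_cases h : α < ξ <;> simp [h], fun α β h => ?_⟩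
      by_cases h' : β < ξ
      · simp [h', h.trans_lt h']
      · by_cases h'' : α < ξ <;> simp [h', h'']
    refine ⟨e w, h5 fun α hα => ?_, w, ⟨ξ, by simp [hw]⟩, rfl⟩
    rw [hw]
    simpa [hξ α hα] using (h4 α hα).2)
  have : Nonempty I := ⟨(I_bdd countable_empty).choose⟩
  choose! r hr' using fun w (hw : w ∈ A) => h1 hw
  obtain ⟨ξ, hξ⟩ := I_bdd (h2.image r)
  have h4 : e z ξ ≤ 0 := closure_minimal (t := {w | e w ξ ≤ 0}) (fun w hw => by
    have h5 : e w ∈ K1 := hr ▸ mem_range_self w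
    exact (h5.2 _ _ (hξ _ ⟨w, hw, rfl⟩).le).trans (hr' w hw).le)
    (isClosed_le ((continuous_apply ξ).comp he.continuous) continuous_const) h3
  rw [hz] at h4
  norm_num at h4

theorem part1 : ∃ (X : Type) (_ : TopologicalSpace X), IsEberlein X ∧ ∃ S : Set (Cp X), Dense S ∧
    ∃ f : S → I → ℝ, Continuous f ∧ K1 ⊆ range f := by
  classical
  let Γ := Option (I ⊕ I)
  let _ : TopologicalSpace Γ := ⊥
  have : DiscreteTopology Γ := ⟨rfl⟩
  let p : I → Γ := fun α => some (Sum.inl α)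
  let q : I → Γ := fun α => some (Sum.inr α)
  let o : Γ := none
  choose d hd using fun ξ : I =>
    supp_fun (Γ := Γ) (T := insert (q ξ) (p '' Iio ξ)) (((I_Iio ξ).image _).insert _)
  obtain ⟨t, t1, t2⟩ := fin_fun o 1
  have hdo : ∀ ξ, (d ξ).1 o = 0 := fun ξ => by_contra fun h => by simpa [p, q, o, Γ] using (hd ξ o).1 h
  have hdp : ∀ ξ α, (d ξ).1 (p α) ≠ 0 ↔ α < ξ := fun ξ α => by simp [hd, p, q, Γ]
  have hdq : ∀ ξ α, (d ξ).1 (q α) ≠ 0 ↔ α = ξ := fun ξ α => by simp [hd, p, q, Γ]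
  choose a a1 a2 using fun α : I => gauge (X := OnePoint Γ) (T := {↑(p α), ↑o}) (toFinite _).countable
  have hI : ∀ α : I, (Iic α).Countable := fun α => by
    rw [← Iio_insert]
    exact (I_Iio α).insert _
  choose b b1 b2 using fun α : I =>
    gauge (X := OnePoint Γ) (T := (fun ξ => (q ξ : OnePoint Γ)) '' Iic α) ((hI α).image _)
  have a3 : ∀ α x, a α x = 0 ↔ x.1 (p α) = 0 ∧ x.1 o = 0 := fun α x => by simp [(a2 α x).2]
  have b3 : ∀ α x, b α x = 0 ↔ ∀ ξ ≤ α, x.1 (q ξ) = 0 := fun α x => by simp [(b2 α x).2]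
  let S : Set (Cp (OnePoint Γ)) := {x | x.1 o ≠ 0} ∪ range d
  have hS : ∀ α, ∀ x ∈ S, a α x + b α x ≠ 0 := by
    intro α x hx h
    obtain ⟨h1, h2⟩ := (add_eq_zero_iff_of_nonneg (a2 α x).1 (b2 α x).1).1 h
    rcases hx with hx | ⟨ξ, rfl⟩
    · exact hx ((a3 α x).1 h1).2
    · rcases lt_or_ge α ξ with h3 | h3
      · exact (hdp ξ α).2 h3 ((a3 α _).1 h1).1
      · exact (hdq ξ ξ).2 rfl ((b3 α _).1 h2 ξ h3)
  refine ⟨OnePoint Γ, inferInstance, eberlein, S, fun x => ?_,
    fun x α => a α x / (a α x + b α x), continuous_pi fun α =>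
      ((a1 α).comp continuous_subtype_val).div (((a1 α).comp continuous_subtype_val).add
        ((b1 α).comp continuous_subtype_val)) fun x => hS α x x.2, fun y hy => ?_⟩
  · by_cases hx : x.1 o = 0
    · let c : ℝ → Cp (OnePoint Γ) := fun s => ⟨fun z => x.1 z + s * t.1 z,
        x.2.add (continuous_const.mul t.2)⟩
      have hc : Continuous c := Continuous.subtype_mk (continuous_pi fun z =>
        continuous_const.add (continuous_id.mul continuous_const)) _
      have h0 : c 0 = x := Subtype.ext (funext fun z => by simp [c])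
      rw [← h0]
      refine map_mem_closure hc (dense_compl_singleton (0 : ℝ) 0) fun s hs => Or.inl ?_
      show x.1 o + s * t.1 o ≠ 0
      rw [hx, t1]
      simpa using hs
    · exact subset_closure (Or.inl hx)
  by_cases h : ∃ α, y α = 0
  · obtain ⟨ξ, h1, h2⟩ := WellFounded.has_min (wellFounded_lt (α := I)) {α | y α = 0} h
    refine ⟨⟨d ξ, Or.inr ⟨ξ, rfl⟩⟩, funext fun α => ?_⟩
    have h4 := hS α _ (Or.inr ⟨ξ, rfl⟩)
    show a α (d ξ) / (a α (d ξ) + b α (d ξ)) = y α
    rcases lt_or_ge α ξ with h3 | h3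
    · have h5 : b α (d ξ) = 0 := (b3 α _).2 fun η hη => by_contra fun h6 =>
        not_le.2 h3 ((hdq ξ η).1 h6 ▸ hη)
      rw [h5, add_zero] at h4 ⊢
      rw [div_self h4, (hy.1 α).resolve_left fun h6 => h2 α h6 h3]
    · have h5 : a α (d ξ) = 0 := (a3 α _).2 ⟨by_contra fun h6 => not_le.2 ((hdp ξ α).1 h6) h3,
        hdo ξ⟩
      have h6 := hy.2 _ _ h3
      rw [show y ξ = 0 from h1] at h6
      rw [h5, zero_div, (hy.1 α).resolve_right fun h7 => by rw [h7] at h6; norm_num at h6]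
  · have ht : t ∈ S := Or.inl (by show t.1 o ≠ 0; rw [t1]; exact one_ne_zero)
    refine ⟨⟨t, ht⟩, funext fun α => ?_⟩
    have h4 := hS α _ ht
    show a α t / (a α t + b α t) = y α
    have h5 : b α t = 0 := (b3 α _).2 fun η _ => t2 _ (by simp [q, o, Γ])
    rw [h5, add_zero] at h4 ⊢
    rw [div_self h4, (hy.1 α).resolve_left fun h6 => h ⟨α, h6⟩]

abbrev Nd : Type := Σ n : ℕ, Fin n → Bool

open Classical in
noncomputable def pt (s : Nd) : (ℕ → Bool) → ℝ := fun b => if ∀ i, s.2 i = b i then 1 else 0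

theorem pt_one {s : Nd} {b : ℕ → Bool} (h : pt s b ≠ 0) : s = ⟨s.1, fun i => b i⟩ := by
  have h1 : ∀ i, s.2 i = b i := by_contra fun h' => h (if_neg h')
  obtain ⟨n, s⟩ := s
  exact congrArg _ (funext h1)

theorem K2_01 {y : (ℕ → Bool) → ℝ} (hy : y ∈ closure (range pt)) (b : ℕ → Bool) :
    y b = 0 ∨ y b = 1 := by
  refine closure_minimal (t := {y : (ℕ → Bool) → ℝ | y b = 0 ∨ y b = 1}) ?_
    ((isClosed_eq (continuous_apply b) continuous_const).union
      (isClosed_eq (continuous_apply b) continuous_const)) hy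
  rintro _ ⟨s, rfl⟩
  by_cases h : ∀ i, s.2 i = b i
  · exact Or.inr (if_pos h)
  · exact Or.inl (if_neg h)

theorem K2_two {y : (ℕ → Bool) → ℝ} (hy : y ∈ closure (range pt)) {b c : ℕ → Bool} (h : b ≠ c)
    (hb : y b ≠ 0) (hc : y c ≠ 0) : y ∈ range pt := by
  obtain ⟨k, hk⟩ := Function.ne_iff.1 h
  have h1 : IsOpen {y : (ℕ → Bool) → ℝ | y b ≠ 0 ∧ y c ≠ 0} :=
    (isOpen_ne_fun (continuous_apply b) continuous_const).inter
      (isOpen_ne_fun (continuous_apply c) continuous_const)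
  have h2 : ((fun n : ℕ => pt ⟨n, fun i => b i⟩) '' Iic k).Finite := (finite_Iic k).image _
  have h3 := closure_minimal ?_ h2.isClosed (h1.inter_closure ⟨⟨hb, hc⟩, hy⟩)
  · obtain ⟨n, _, rfl⟩ := h3
    exact mem_range_self _
  rintro _ ⟨⟨h4, h5⟩, s, rfl⟩
  refine ⟨s.1, mem_Iic.2 (not_lt.1 fun h6 => hk ?_), congrArg pt (pt_one h4).symm⟩
  have h7 : ∀ i, s.2 i = b i := by_contra fun h' => h4 (if_neg h')
  have h8 : ∀ i, s.2 i = c i := by_contra fun h' => h5 (if_neg h')
  exact (h7 ⟨k, h6⟩).symm.trans (h8 ⟨k, h6⟩)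

open Classical in
theorem K2_e (b : ℕ → Bool) : (Pi.single b 1 : (ℕ → Bool) → ℝ) ∈ closure (range pt) := by
  refine mem_closure_of_tendsto (f := fun n : ℕ => pt ⟨n, fun i => b i⟩) (b := atTop)
    (tendsto_pi_nhds.2 fun c => ?_) (Eventually.of_forall fun n => mem_range_self _)
  by_cases h : c = b
  · subst h
    simp [pt]
  · obtain ⟨k, hk⟩ := Function.ne_iff.1 h
    rw [Pi.single_eq_of_ne h]
    refine tendsto_const_nhds.congr' ?_
    filter_upwards [eventually_gt_atTop k] with n hn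
    exact (if_neg fun h' => hk (h' ⟨k, hn⟩).symm).symm

theorem K2_compact : IsCompact (closure (range pt)) := by
  refine (isCompact_univ_pi fun _ : ℕ → Bool =>
    isCompact_Icc (a := (0 : ℝ)) (b := 1)).of_isClosed_subset isClosed_closure fun y hy b _ => ?_
  rcases K2_01 hy b with h | h <;> simp [h]

theorem unc : ¬ (univ : Set (ℕ → Bool)).Countable := by
  rw [← le_aleph0_iff_set_countable, mk_univ, not_le]
  simpa using aleph0_lt_continuum

theorem K2_not {Z : Type} [TopologicalSpace Z] {e : Z → (ℕ → Bool) → ℝ} (he : IsEmbedding e)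
    (hr : range e = closure (range pt)) : ¬ Monolithic Z := by
  classical
  intro h
  have h1 : e '' (e ⁻¹' range pt) = range pt := image_preimage_eq_of_subset (hr ▸ subset_closure)
  have h2 : ∀ z, z ∈ closure (e ⁻¹' range pt) := fun z => by
    rw [he.closure_eq_preimage_closure_image, h1, ← hr]
    exact mem_range_self z
  have h3 : (e ⁻¹' range pt).Countable := (countable_range pt).preimage he.injective
  choose z hz using fun b => (show (Pi.single b 1 : (ℕ → Bool) → ℝ) ∈ range e from hr ▸ K2_e b)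
  have h4 : ∀ b c, e (z b) c ≠ 0 → c = b := fun b c h => by_contra fun h' => h (by
    rw [hz, Pi.single_eq_of_ne h'])
  have h5 : ∀ b, e (z b) b ≠ 0 := fun b => by simp [hz]
  obtain ⟨𝒩, h6, h7⟩ := h (e ⁻¹' range pt) fun h => by
    have := he.t1Space
    have h8 : range z ⊆ e ⁻¹' range pt := fun w _ => h.isClosed.closure_eq ▸ h2 w
    exact unc ((h.countable.preimage_of_injOn (f := z) fun b _ c _ h => h4 c b
      (h ▸ h5 b)).mono fun b _ => h8 (mem_range_self b))
  choose N N1 N2 N3 using fun b => h7 {w | e w.1 b ≠ 0} (isOpen_ne_fun ((continuous_apply b).comp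
    (he.continuous.comp continuous_subtype_val)) continuous_const) ⟨z b, h2 _⟩ (h5 b)
  have h8 : 𝒩.Countable :=
    le_aleph0_iff_set_countable.1 (h6.trans (le_aleph0_iff_set_countable.2 h3))
  exact unc ((h8.preimage_of_injOn (f := N) fun b _ c _ h => (h4 b c (N3 c (h ▸ N2 b))).symm).mono
    fun b _ => N1 b)

theorem part2 : ∃ (X : Type) (_ : TopologicalSpace X), IsEberlein X ∧ ∃ S : Set (Cp X), Dense S ∧
    ∃ f : S → (ℕ → Bool) → ℝ, Continuous f ∧ closure (range pt) ⊆ range f := by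
  classical
  let Γ := Option (ℕ → Bool)
  let _ : TopologicalSpace Γ := ⊥
  have : DiscreteTopology Γ := ⟨rfl⟩
  let p : (ℕ → Bool) → Γ := some
  let o : Γ := none
  obtain ⟨k, hk⟩ := exists_surjective_nat Nd
  choose φ hφ using fun b : ℕ → Bool => ContinuousMap.exists_extension (Y := ℝ)
    Nat.isClosedEmbedding_coe_real ⟨fun n : ℕ => (Nat.casesOn n 0 fun m => pt (k m) b : ℝ),
      continuous_of_discreteTopology⟩
  have φ0 : ∀ b, φ b 0 = 0 := fun b => by
    simpa using DFunLike.congr_fun (hφ b) 0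
  have φ1 : ∀ b (m : ℕ), φ b ((m + 1 : ℕ) : ℝ) = pt (k m) b := fun b m =>
    DFunLike.congr_fun (hφ b) (m + 1)
  refine ⟨OnePoint Γ, inferInstance, eberlein, univ, dense_univ,
    fun x b => x.1.1 (p b) + φ b (x.1.1 o), continuous_pi fun b => ?_, fun y hy => ?_⟩
  · have : ∀ z, Continuous fun x : (univ : Set (Cp (OnePoint Γ))) => x.1.1 z := fun z =>
      (continuous_apply z).comp (continuous_subtype_val.comp continuous_subtype_val)
    exact (this _).add ((φ b).continuous.comp (this _))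
  by_cases h : y ∈ range pt
  · obtain ⟨s, rfl⟩ := h
    obtain ⟨m, rfl⟩ := hk s
    obtain ⟨d, d1, d2⟩ := fin_fun o ((m + 1 : ℕ) : ℝ)
    refine ⟨⟨d, mem_univ _⟩, funext fun b => ?_⟩
    show d.1 (p b) + φ b (d.1 o) = _
    rw [d1, φ1, d2 _ (by simp [p, o, Γ]), zero_add]
  by_cases h' : ∃ b, y b ≠ 0
  · obtain ⟨b, hb⟩ := h'
    obtain ⟨d, d1, d2⟩ := fin_fun (p b) (y b)
    refine ⟨⟨d, mem_univ _⟩, funext fun c => ?_⟩
    show d.1 (p c) + φ c (d.1 o) = _
    rw [d2 o (by simp [p, o, Γ]), φ0, add_zero]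
    by_cases hc : c = b
    · rw [hc, d1]
    · rw [d2 _ (by simpa [p, Γ] using hc)]
      exact (by_contra fun h'' => h (K2_two hy hc h'' hb) : y c = 0).symm
  · push Not at h'
    refine ⟨⟨⟨0, continuous_const⟩, mem_univ _⟩, funext fun c => ?_⟩
    show (0 : ℝ) + φ c 0 = _
    rw [φ0, h', add_zero]

theorem result :
    (∃ (X : Type) (_ : TopologicalSpace X), IsEberlein X ∧ ∃ S : Set (Cp X), Dense S ∧
      ∃ (Y : Type) (_ : TopologicalSpace Y), T35Space Y ∧ ∃ g : S → Y, Continuous g ∧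
        Surjective g ∧ ∃ B : Set Y, IsCompact B ∧ ¬ CountablyTight B ∧ ¬ SequentialSpace B) ∧
    (∃ (X : Type) (_ : TopologicalSpace X), IsEberlein X ∧ ∃ S : Set (Cp X), Dense S ∧
      ∃ (Y : Type) (_ : TopologicalSpace Y), T35Space Y ∧ ∃ g : S → Y, Continuous g ∧
        Surjective g ∧ ∃ B : Set Y, IsCompact B ∧ ¬ Monolithic B) := by
  constructor
  · obtain ⟨X, _, h1, S, h2, f, h3, h4⟩ := part1
    obtain ⟨Y, _, h5, g, h6, h7, B, h8, e, h9, h10⟩ := real h3 K1_compact h4
    exact ⟨X, _, h1, S, h2, Y, _, h5, g, h6, h7, B, h8, K1_not h9 h10,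
      fun _ => K1_not h9 h10 ct_of_seq⟩
  · obtain ⟨X, _, h1, S, h2, f, h3, h4⟩ := part2
    obtain ⟨Y, _, h5, g, h6, h7, B, h8, e, h9, h10⟩ := real h3 K2_compact h4
    exact ⟨X, _, h1, S, h2, Y, _, h5, g, h6, h7, B, h8, K2_not h9 h10⟩

end Pool.Agent.Results.MP_570618_gt.AllFail
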